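import Pool.Agent.helper78.HR.GK

set_option autoImplicit false

namespace Pool.Agent.Results.MP_58257a_co.LogOverK

/-- Hitting sets of size `O(|A| (log k) / k)` for the `k`-rich rectangles: for every `k ≥ 250` and every finite plane
set `A` there is a finite plane set `A'` with at most `((20 log k + 13) / k) |A|` points, hence with at most `|A| / 2`
points, that meets every closed axis-parallel rectangle with at least `k` points of `A`. -/
theorem result : ∀ (k : ℕ), 250 ≤ k → ∀ A : Finset (ℝ × ℝ),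
    ∃ A' : Finset (ℝ × ℝ), (A'.card : ℝ) ≤ (20 * Real.log k + 13) / k * A.card ∧
      A'.card ≤ A.card / 2 ∧
      ∀ x₁ x₂ y₁ y₂ : ℝ,
        k ≤ (A.filter (fun p => x₁ ≤ p.1 ∧ p.1 ≤ x₂ ∧ y₁ ≤ p.2 ∧ p.2 ≤ y₂)).card →
        ∃ q ∈ A', x₁ ≤ q.1 ∧ q.1 ≤ x₂ ∧ y₁ ≤ q.2 ∧ q.2 ≤ y₂ :=
  fun k hk A => Pool.Agent.helper78.HR.gk_main k hk A

end Pool.Agent.Results.MP_58257a_co.LogOverK
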